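import Pool.Agent.WIR.StmtsB

/-!
# WIR, row DEC: polynomial decay of the walk value
-/

namespace Pool.Agent.WIR.H95

theorem dec (hDVB : DvbStmt) (hDCS : DcsStmt) (hDCL : DclStmt) : DecStmt := by
  intro d A hd hd1
  obtain ⟨m1, hm1, h1⟩ := hDCS d A hd hd1
  obtain ⟨m2, hm2, h2⟩ := hDCL d A hd hd1
  have hC1 : (1 : ℝ) ≤ ((max m1 m2 : ℕ) + 1 : ℝ) ^ A := one_le_pow₀ (by
    have : (0 : ℝ) ≤ (max m1 m2 : ℕ) := Nat.cast_nonneg _
    linarith)
  refine ⟨((max m1 m2 : ℕ) + 1 : ℝ) ^ A, hC1, ?_⟩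
  intro h b Q t B j l m hT
  induction m using Nat.strong_induction_on generalizing j l with
  | _ m ih =>
    intro hjm
    have hpos : (0 : ℝ) < ((m : ℝ) + 1) ^ A := by positivity
    by_cases hsmall : m < max m1 m2
    · have hle := ((hDVB B d b hd.le hd1).1 m j l).2
      refine hle.trans ?_
      rw [le_div_iff₀ hpos, one_mul]
      refine pow_le_pow_left₀ (by positivity) ?_ A
      have : (m : ℝ) ≤ (max m1 m2 : ℕ) := by exact_mod_cast hsmall.le
      linarith
    · push Not at hsmall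
      have hm1' : m1 ≤ m := (le_max_left _ _).trans hsmall
      have hm2' : m2 ≤ m := (le_max_right _ _).trans hsmall
      have hIH : ∀ m' x, m' < m → Dv B d b m' (j + (m - m')) x ≤
          ((max m1 m2 : ℕ) + 1 : ℝ) ^ A / ((m' : ℝ) + 1) ^ A := by
        intro m' x hm'
        exact ih m' hm' (j + (m - m')) x (by omega)
      by_cases hb : b (j + 1) (l + 3)
      · obtain ⟨q, hq, hqt⟩ := hT.cover _ _ hb
        by_cases hs : ((q.2 - l : ℕ) : ℝ) ≤ d / (16 * (A + 1)) * m
        · exact h1 h b Q t B j l m _ hT hm1' (by linarith) hIH (Or.inr ⟨q, hq, hqt, hs⟩)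
        · push Not at hs
          exact h2 h b Q t B j l m _ hT hm2' hjm hC1 hIH q hq hqt hs
      · exact h1 h b Q t B j l m _ hT hm1' (by linarith) hIH (Or.inl hb)

end Pool.Agent.WIR.H95
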