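import Pool.Agent.WIR.StmtsB

/-!
# WIR, row GWH: a good exit is followed by a white point
-/

namespace Pool.Agent.WIR.H95

theorem gwh (hLAM : LamStmt) : GwhStmt := by
  intro h b Q t hT q j l k o hq htri hk ho1 ho9 hblack
  obtain ⟨h1, h2, h3⟩ := htri
  obtain ⟨hl1, -, hl2⟩ := hLAM
  obtain ⟨w, hw1, hw2⟩ := hl2 (q.2 - l) (by omega)
  have hs : ((q.2 - l : ℕ) : ℝ) = (q.2 : ℝ) - l := Nat.cast_sub (by omega)
  rw [hs] at hw1
  obtain ⟨j', hj1, hj2, hj3, hj4⟩ : ∃ j', j + 1 ≤ j' ∧ j' ≤ j + 1 + w ∧ j' ≤ j + k + 2 ∧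
      j + k + 2 ≤ j' + 12 := by
    by_cases hkw : k + 1 ≤ w
    · exact ⟨j + k + 2, by omega, by omega, le_refl _, by omega⟩
    · exact ⟨j + 1 + w, by omega, le_refl _, by omega, by omega⟩
  have hj2' : (j' : ℝ) ≤ (j : ℝ) + 1 + w := by exact_mod_cast hj2
  have htri' : Tri q (t q) j' q.2 := by
    refine ⟨h1.trans hj1, le_refl _, ?_⟩
    push_cast at h3
    have h4 : lam * ((j' : ℝ) - q.1) ≤ lam * ((j : ℝ) + 1 - q.1) + lam * w := by
      rw [← mul_add]
      refine mul_le_mul_of_nonneg_left ?_ (by linarith)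
      linarith
    linarith
  have h5 := hT.sep q hq j' q.2 (j + k + 2) (q.2 + o + 3) htri' hblack (by omega) (by omega)
    (by omega) (by omega)
  have h6 := h5.2.1
  omega

end Pool.Agent.WIR.H95
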