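import Pool.Agent.WIR.StmtsE

/-!
# WIR, row ULX: the local limit at the unit level
-/

namespace Pool.Agent.WIR.H95

open scoped BigOperators

theorem sum_pj {m l : ℕ} (h : m ≤ l) (f : ZMod (3 ^ m) → ℝ) :
    ∑ x : ZMod (3 ^ l), f (pj m l x) = 3 ^ (l - m) * ∑ z : ZMod (3 ^ m), f z := by
  classical
  let φ : ZMod (3 ^ l) →+* ZMod (3 ^ m) := ZMod.castHom (pow_dvd_pow 3 h) (ZMod (3 ^ m))
  have hpj : ∀ x, pj m l x = φ x := by
    intro x
    show ((x.val : ℕ) : ZMod (3 ^ m)) = _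
    rw [ZMod.natCast_val]
    rfl
  have hsurj : Function.Surjective φ := ZMod.ringHom_surjective φ
  have hfib : ∀ z : ZMod (3 ^ m), (Finset.univ.filter (fun x => φ x = z)).card =
      (Finset.univ.filter (fun x => φ x = 0)).card := by
    intro z
    exact AddMonoidHom.card_fiber_eq_of_mem_range φ.toAddMonoidHom (hsurj z) (hsurj 0)
  have hcard : (Finset.univ.filter (fun x => φ x = 0)).card * 3 ^ m = 3 ^ l := by
    have h1 := Finset.card_eq_sum_card_fiberwise (s := (Finset.univ : Finset (ZMod (3 ^ l))))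
      (t := (Finset.univ : Finset (ZMod (3 ^ m)))) (f := φ) (fun x _ => Finset.mem_coe.2
        (Finset.mem_univ _))
    rw [Finset.sum_congr rfl fun z _ => hfib z, Finset.sum_const, smul_eq_mul, Finset.card_univ,
      Finset.card_univ, ZMod.card, ZMod.card] at h1
    rw [mul_comm]
    exact h1.symm
  have hcard' : (Finset.univ.filter (fun x => φ x = 0)).card = 3 ^ (l - m) := by
    have h2 : 3 ^ l = 3 ^ (l - m) * 3 ^ m := by rw [← pow_add, Nat.sub_add_cancel h]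
    exact Nat.eq_of_mul_eq_mul_right (by positivity) (hcard.trans h2)
  rw [← Finset.sum_fiberwise (g := φ)]
  rw [Finset.mul_sum]
  refine Finset.sum_congr rfl fun z _ => ?_
  have h3 : ∑ x ∈ Finset.univ.filter (fun x => φ x = z), f (pj m l x) =
      ∑ x ∈ Finset.univ.filter (fun x => φ x = z), f z := by
    refine Finset.sum_congr rfl fun x hx => ?_
    rw [hpj, (Finset.mem_filter.1 hx).2]
  rw [h3, Finset.sum_const, hfib, hcard', nsmul_eq_mul]
  push_cast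
  ring

theorem W_eq (m : ℕ) (z : ZMod (3 ^ m)) :
    W m z = 3 ^ m / 2 ^ (3 * m) * ∑ r ∈ Finset.Icc m (3 * m), (cnt (3 * m) {r} m z : ℝ) := by
  classical
  unfold W
  congr 1
  have h1 : cnt (3 * m) (Set.Ici m) m z = ∑ r ∈ Finset.Icc m (3 * m), cnt (3 * m) {r} m z := by
    unfold cnt
    rw [Finset.card_eq_sum_card_fiberwise (f := Finset.card) (t := Finset.Icc m (3 * m))]
    · refine Finset.sum_congr rfl fun r hr => ?_
      congr 1
      ext O
      simp only [Finset.mem_filter, Set.mem_Ici, Set.mem_singleton_iff]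
      constructor
      · rintro ⟨⟨h0, -, h2⟩, h3⟩
        exact ⟨h0, h3, h2⟩
      · rintro ⟨h0, h3, h2⟩
        exact ⟨⟨h0, h3 ▸ (Finset.mem_Icc.1 hr).1, h2⟩, h3⟩
    · intro O hO
      simp only [Finset.mem_coe, Finset.mem_filter, Finset.mem_powerset, Set.mem_Ici] at hO
      rw [Finset.mem_coe, Finset.mem_Icc]
      refine ⟨hO.2.1, ?_⟩
      have h4 := Finset.card_le_card hO.1
      rwa [Nat.card_Icc, Nat.add_sub_cancel] at h4
  rw [h1]
  push_cast
  rfl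

theorem ulx (tel : TelStmt) (cut : CutStmt) (kap : KapStmt) : UlxStmt := by
  intro A
  obtain ⟨C1, hC1, hT⟩ := tel A
  refine ⟨C1 + 6 ^ A * (A.factorial : ℝ) * Real.exp (1 / 6), ?_, ?_⟩
  · have : (0 : ℝ) ≤ 6 ^ A * (A.factorial : ℝ) * Real.exp (1 / 6) := by positivity
    linarith
  intro ε hε
  obtain ⟨m0, hK⟩ := kap ε hε
  refine ⟨max m0 3, ?_⟩
  intro m M l hm hM hl h8
  have hm0 : m0 ≤ m := le_trans (le_max_left _ _) hm
  have hm3 : 3 ≤ m := le_trans (le_max_right _ _) hm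
  have h27 : 27 * m ≤ m ^ 4 := by
    have : 27 ≤ m ^ 3 := by
      calc 27 = 3 ^ 3 := by norm_num
        _ ≤ m ^ 3 := Nat.pow_le_pow_left hm3 3
    calc 27 * m ≤ m ^ 3 * m := Nat.mul_le_mul_right m this
      _ = m ^ 4 := by ring
  have h9 : 9 * m ^ 4 ≤ m ^ 6 := by
    have : 9 ≤ m ^ 2 := by
      calc 9 = 3 ^ 2 := by norm_num
        _ ≤ m ^ 2 := Nat.pow_le_pow_left hm3 2
    calc 9 * m ^ 4 ≤ m ^ 2 * m ^ 4 := Nat.mul_le_mul_right _ this
      _ = m ^ 6 := by ring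
  have h3M : 3 * m ≤ M := by omega
  have h3l : 3 * m ≤ l := by
    have h1 := (abs_le.1 hl).1
    have h2 : ((m ^ 4 : ℕ) : ℤ) = (m : ℤ) ^ 4 := by push_cast; rfl
    rw [← h2] at h1
    omega
  have hml : m ≤ l := by omega
  have hexp : Real.exp (-((m : ℝ) / 6)) ≤
      6 ^ A * (A.factorial : ℝ) * Real.exp (1 / 6) / ((m : ℝ) + 1) ^ A := by
    rw [le_div_iff₀ (by positivity)]
    have h1 := Real.pow_div_factorial_le_exp (((m : ℝ) + 1) / 6) (by positivity) A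
    have h2 : ((m : ℝ) + 1) ^ A ≤ 6 ^ A * (A.factorial : ℝ) * Real.exp (((m : ℝ) + 1) / 6) := by
      rw [div_pow, div_div, div_le_iff₀ (by positivity)] at h1
      linarith
    have h3 : Real.exp (-((m : ℝ) / 6)) * Real.exp (((m : ℝ) + 1) / 6) = Real.exp (1 / 6) := by
      rw [← Real.exp_add]
      congr 1
      ring
    calc Real.exp (-((m : ℝ) / 6)) * ((m : ℝ) + 1) ^ A
        ≤ Real.exp (-((m : ℝ) / 6)) *
          (6 ^ A * (A.factorial : ℝ) * Real.exp (((m : ℝ) + 1) / 6)) :=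
          mul_le_mul_of_nonneg_left h2 (Real.exp_pos _).le
      _ = 6 ^ A * (A.factorial : ℝ) *
          (Real.exp (-((m : ℝ) / 6)) * Real.exp (((m : ℝ) + 1) / 6)) := by ring
      _ = _ := by rw [h3]
  obtain ⟨hc1, hc2⟩ := cut m l M h3M h3l
  -- notation
  set E : ZMod (3 ^ m) → ℝ := fun z => ∑ r ∈ Finset.Icc m (3 * m),
    (cnt (3 * m) {r} m z : ℝ) * ((M - 3 * m).choose (l - r) : ℝ) with hE
  set S : ZMod (3 ^ m) → ℝ := fun z => ∑ r ∈ Finset.Icc m (3 * m),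
    (cnt (3 * m) {r} m z : ℝ) with hS
  set B : ℝ := (M.choose l : ℝ) with hB
  have hE1 : ∀ z, E z ≤ (cnt M {l} m z : ℝ) := by
    intro z
    have := hc1 z
    have h2 : ((∑ r ∈ Finset.Icc m (3 * m), cnt (3 * m) {r} m z * (M - 3 * m).choose (l - r) : ℕ)
      : ℝ) ≤ (cnt M {l} m z : ℝ) := by exact_mod_cast this
    push_cast at h2
    exact h2
  have hKz : ∀ z, |2 ^ (3 * m) * E z - B * S z| ≤ ε * B * S z := by
    intro z
    have h1 : 2 ^ (3 * m) * E z - B * S z = ∑ r ∈ Finset.Icc m (3 * m),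
        (cnt (3 * m) {r} m z : ℝ) * (2 ^ (3 * m) * ((M - 3 * m).choose (l - r) : ℝ) - B) := by
      rw [hE, hS]
      simp only
      rw [Finset.mul_sum, Finset.mul_sum, ← Finset.sum_sub_distrib]
      exact Finset.sum_congr rfl fun r _ => by ring
    rw [h1]
    refine (Finset.abs_sum_le_sum_abs _ _).trans ?_
    rw [hS]
    simp only
    rw [Finset.mul_sum]
    refine Finset.sum_le_sum fun r hr => ?_
    rw [abs_mul, abs_of_nonneg (Nat.cast_nonneg _ : (0 : ℝ) ≤ (cnt (3 * m) {r} m z : ℝ)), mul_comm]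
    exact mul_le_mul_of_nonneg_right (hK m M l r hm0 hM hl (Finset.mem_Icc.1 hr).2)
      (Nat.cast_nonneg _)
  have hWz : ∀ z, B / 3 ^ l * W m z = 3 ^ m / 3 ^ l * (B * S z / 2 ^ (3 * m)) := by
    intro z
    rw [W_eq]
    ring
  set D : ZMod (3 ^ m) → ℝ := fun z => 3 ^ m / 3 ^ l * ((cnt M {l} m z : ℝ) - E z) with hD
  have hD0 : ∀ z, 0 ≤ D z := by
    intro z
    have := hE1 z
    rw [hD]
    exact mul_nonneg (by positivity) (by linarith)
  have hpt : ∀ x : ZMod (3 ^ l), max 0 (|(cnt M {l} l x : ℝ) - B / 3 ^ l * W m (pj m l x)|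
      - ε * (B / 3 ^ l * W m (pj m l x))) ≤
      |(cnt M {l} l x : ℝ) - 3 ^ m / 3 ^ l * (cnt M {l} m (pj m l x) : ℝ)| + D (pj m l x) := by
    intro x
    set z := pj m l x with hz
    refine max_le (add_nonneg (abs_nonneg _) (hD0 z)) ?_
    rw [hWz z]
    have h1 : (cnt M {l} l x : ℝ) - 3 ^ m / 3 ^ l * (B * S z / 2 ^ (3 * m)) =
        ((cnt M {l} l x : ℝ) - 3 ^ m / 3 ^ l * (cnt M {l} m z : ℝ)) + D z +
        3 ^ m / 3 ^ l * ((2 ^ (3 * m) * E z - B * S z) / 2 ^ (3 * m)) := by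
      rw [hD]
      simp only
      have h2 : (2 : ℝ) ^ (3 * m) ≠ 0 := by positivity
      have h3 : (2 ^ (3 * m) * E z - B * S z) / 2 ^ (3 * m) = E z - B * S z / 2 ^ (3 * m) := by
        rw [sub_div, mul_div_cancel_left₀ _ h2]
      rw [h3]
      ring
    rw [h1]
    have h4 : |3 ^ m / 3 ^ l * ((2 ^ (3 * m) * E z - B * S z) / 2 ^ (3 * m))| ≤
        ε * (3 ^ m / 3 ^ l * (B * S z / 2 ^ (3 * m))) := by
      rw [abs_mul, abs_div (2 ^ (3 * m) * E z - B * S z),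
        abs_of_nonneg (by positivity : (0 : ℝ) ≤ 3 ^ m / 3 ^ l),
        abs_of_nonneg (by positivity : (0 : ℝ) ≤ 2 ^ (3 * m))]
      calc 3 ^ m / 3 ^ l * (|2 ^ (3 * m) * E z - B * S z| / 2 ^ (3 * m))
          ≤ 3 ^ m / 3 ^ l * (ε * B * S z / 2 ^ (3 * m)) := by
            refine mul_le_mul_of_nonneg_left ?_ (by positivity)
            exact div_le_div_of_nonneg_right (hKz z) (by positivity)
        _ = _ := by ring
    have h5 := abs_add_le (((cnt M {l} l x : ℝ) - 3 ^ m / 3 ^ l * (cnt M {l} m z : ℝ)) + D z)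
      (3 ^ m / 3 ^ l * ((2 ^ (3 * m) * E z - B * S z) / 2 ^ (3 * m)))
    have h6 := abs_add_le ((cnt M {l} l x : ℝ) - 3 ^ m / 3 ^ l * (cnt M {l} m z : ℝ)) (D z)
    rw [abs_of_nonneg (hD0 z)] at h6
    linarith
  refine (Finset.sum_le_sum fun x _ => hpt x).trans ?_
  rw [Finset.sum_add_distrib, sum_pj hml]
  have hs1 := hT m l M hml h8
  have hs2 : (3 : ℝ) ^ (l - m) * ∑ z : ZMod (3 ^ m), D z ≤ 2 ^ M * Real.exp (-((m : ℝ) / 6)) := by
    have h1 : ∑ z : ZMod (3 ^ m), D z = 3 ^ m / 3 ^ l *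
        ((∑ z : ZMod (3 ^ m), (cnt M {l} m z : ℝ)) - ∑ z : ZMod (3 ^ m), E z) := by
      rw [hD, ← Finset.sum_sub_distrib, Finset.mul_sum]
    have h2 : (3 : ℝ) ^ (l - m) * (3 ^ m / 3 ^ l) = 1 := by
      rw [← mul_div_assoc, ← pow_add, Nat.sub_add_cancel hml]
      exact div_self (by positivity)
    rw [h1, ← mul_assoc, h2, one_mul]
    exact hc2
  have hs3 : 2 ^ M * Real.exp (-((m : ℝ) / 6)) ≤
      2 ^ M * (6 ^ A * (A.factorial : ℝ) * Real.exp (1 / 6) / ((m : ℝ) + 1) ^ A) :=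
    mul_le_mul_of_nonneg_left hexp (by positivity)
  calc _ ≤ C1 / ((m : ℝ) + 1) ^ A * 2 ^ M +
      2 ^ M * (6 ^ A * (A.factorial : ℝ) * Real.exp (1 / 6) / ((m : ℝ) + 1) ^ A) :=
        add_le_add hs1 (hs2.trans hs3)
    _ = _ := by ring

end Pool.Agent.WIR.H95
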